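import Mathlib
import Pool.Agent.Helper852.OF.Main

set_option autoImplicit false

namespace Pool.Agent.Results.MP_b2bf24_co.AlmostLinear

open Filter Asymptotics

/-- The ordered graph `G` (on `Fin n` with its usual order) contains the ordered graph `P`: there is
a strictly increasing map of the vertices which sends every edge of `P` to an edge of `G`. -/
def OrdContains {n k : ℕ} (G : SimpleGraph (Fin n)) (P : SimpleGraph (Fin k)) : Prop :=
  ∃ f : Fin k → Fin n, StrictMono f ∧ ∀ i j : Fin k, P.Adj i j → G.Adj (f i) (f j)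

/-- `ex_<(P,n)`: the largest number of edges of an ordered graph on `n` vertices avoiding `P`. -/
noncomputable def exOrd {k : ℕ} (P : SimpleGraph (Fin k)) (n : ℕ) : ℕ :=
  sSup {m : ℕ | ∃ G : SimpleGraph (Fin n), ¬ OrdContains G P ∧ G.edgeSet.ncard = m}

/-- every edge joins one of the first `q` vertices to one of the remaining vertices -/
def OrderedBipartite {k : ℕ} (P : SimpleGraph (Fin k)) : Prop :=
  ∃ q : ℕ, ∀ i j : Fin k, i < j → P.Adj i j → i.val < q ∧ q ≤ j.val

/-- For every ordered bipartite forest `P` and every real `c > 1`, `ex_<(P,n) = o(n^c)`. -/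
theorem result (k : ℕ) (P : SimpleGraph (Fin k)) (hbip : OrderedBipartite P) (hP : P.IsAcyclic)
    (c : ℝ) (hc : 1 < c) :
    (fun n : ℕ => (exOrd P n : ℝ)) =o[atTop] (fun n : ℕ => (n : ℝ) ^ c) := by
  obtain ⟨q, hq⟩ := hbip
  have hq' : ∃ q : ℕ, ∀ i j : Fin k, P.Adj i j → (i.val < q ↔ q ≤ j.val) := by
    refine ⟨q, ?_⟩
    intro i j hij
    rcases lt_trichotomy i j with h | h | h
    · have := hq i j h hij
      omega
    · exact absurd h hij.ne
    · have := hq j i h hij.symm
      omega
  have hδ : 0 < (c - 1) / 2 := by linarith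
  obtain ⟨N, hN⟩ := H852OF.main k P hP hq' ((c - 1) / 2) hδ
  have hbound : ∀ n : ℕ, N ≤ n → (exOrd P n : ℝ) ≤ (n : ℝ) ^ (1 + (c - 1) / 2) := by
    intro n hn
    have h0 : (0:ℝ) ≤ (n : ℝ) ^ (1 + (c - 1) / 2) := Real.rpow_nonneg (Nat.cast_nonneg n) _
    have h1 : exOrd P n ≤ ⌊(n : ℝ) ^ (1 + (c - 1) / 2)⌋₊ := by
      apply csSup_le'
      rintro m ⟨G, hG, rfl⟩
      exact Nat.le_floor (hN n hn G hG)
    exact (Nat.cast_le.2 h1).trans (Nat.floor_le h0)
  have hO : (fun n : ℕ => (exOrd P n : ℝ)) =O[atTop] (fun n : ℕ => (n : ℝ) ^ (1 + (c - 1) / 2)) := by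
    apply IsBigO.of_bound 1
    filter_upwards [eventually_ge_atTop N] with n hn
    rw [one_mul, Real.norm_of_nonneg (Nat.cast_nonneg _),
      Real.norm_of_nonneg (Real.rpow_nonneg (Nat.cast_nonneg n) _)]
    exact hbound n hn
  refine hO.trans_isLittleO ?_
  apply isLittleO_of_tendsto'
  · filter_upwards [eventually_gt_atTop 0] with n hn h
    have hn' : (0:ℝ) < n := by exact_mod_cast hn
    exact absurd h (Real.rpow_pos_of_pos hn' _).ne'
  · have h3 := (tendsto_rpow_neg_atTop (y := (c - 1) / 2) hδ).comp tendsto_natCast_atTop_atTop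
    refine h3.congr' ?_
    filter_upwards [eventually_gt_atTop 0] with n hn
    have hn' : (0:ℝ) < n := by exact_mod_cast hn
    simp only [Function.comp]
    rw [← Real.rpow_sub hn']
    congr 1
    ring

end Pool.Agent.Results.MP_b2bf24_co.AlmostLinear
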